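import Mathlib
import Pool.Agent.Lib.MP_d1728b_an.HLP.Q2

set_option autoImplicit false

namespace Pool.Agent.Results.MP_d1728b_an.SharpConstant

/-- The asymptotic Littlewood inequality with the sharp constant `4/π²`: for every `ε > 0` there is `N₀` such
that every set `A` of `N ≥ N₀` integers satisfies `(4/π² - ε) log N ≤ ∫₀¹ |∑_{a ∈ A} e(aθ)| dθ`. -/
theorem result : ∀ ε : ℝ, 0 < ε → ∃ N₀ : ℕ, ∀ A : Finset ℤ, N₀ ≤ A.card →
    (4 / Real.pi ^ 2 - ε) * Real.log (A.card : ℝ) ≤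
      ∫ θ in (0:ℝ)..1, ‖∑ a ∈ A, Complex.exp (2 * (Real.pi : ℂ) * Complex.I * (a : ℂ) * (θ : ℂ))‖ :=
  Pool.Agent.MP_d1728b_an.HLP.asymptotic

end Pool.Agent.Results.MP_d1728b_an.SharpConstant
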